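import Pool.Agent.H85.Tau2

set_option autoImplicit false

namespace Pool.Agent.Results.MP_24a1d9_gt.OmegaTauPowers

open Pool.Agent.H85.TauDefs

/-- `S1(Omega, Tau)` is preserved under finite powers of sets of reals. -/
theorem result (X : Set ℝ) (hX : S1 (Omega X) (Tau X)) (k : ℕ) :
    S1 (Omega (Fin k → X)) (Tau (Fin k → X)) :=
  Pool.Agent.H85.Tau.S1_mono
    (Pool.Agent.H85.Tau2.S1OG_pow (Pool.Agent.H85.Tau.S1OG_of_S1OT hX) k)
    Set.Subset.rfl Pool.Agent.H85.Tau.gamma_sub_tau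

end Pool.Agent.Results.MP_24a1d9_gt.OmegaTauPowers
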