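import Pool.Agent.H83.Tw5
import Pool.Agent.H85.Tau2

set_option autoImplicit false

namespace Pool.Agent.Results.MP_24a1d9_gt.Q1Full

open Cardinal Pool.Agent.H85.TauDefs Pool.Agent.H83.TwDefs

/-- `S1(Omega, Tau)` is preserved under finite powers; under CH `Sfin(Omega, Tau)` is not. -/
theorem result :
    (∀ X : Set ℝ, S1 (Omega X) (Tau X) → ∀ k : ℕ, S1 (Omega (Fin k → X)) (Tau (Fin k → X))) ∧
    ((𝔠 : Cardinal.{0}) = ℵ₁ → ∃ X : Set ℝ, Sfin (Omega X) (Tau X) ∧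
      ¬ Sfin (Omega (Fin 2 → X)) (Tau (Fin 2 → X))) := by
  refine ⟨fun X hX k => Pool.Agent.H85.Tau.S1_mono
    (Pool.Agent.H85.Tau2.S1OG_pow (Pool.Agent.H85.Tau.S1OG_of_S1OT hX) k)
    Set.Subset.rfl Pool.Agent.H85.Tau.gamma_sub_tau, fun hCH => ?_⟩
  obtain ⟨X, hne, h1, -, -, -, h5, -⟩ := Pool.Agent.H83.Tw.main hCH
  exact ⟨X, h1, fun h => h5 (Pool.Agent.H83.Tw.sfin_mono h
    (Pool.Agent.H85.Tau.gamma_sub_tau.trans Pool.Agent.H85.Tau.tau_sub_omega))⟩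

end Pool.Agent.Results.MP_24a1d9_gt.Q1Full
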