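import Pool.Agent.H83.Sier1

set_option autoImplicit false

namespace Pool.Agent.Results.MP_24a1d9_gt.Q2Full

open Set Cardinal Pool.Agent.H85.TauDefs Pool.Agent.H83.TwDefs Pool.Agent.H85.Tau

theorem sfin_of {Y : Type} {A A' B B' : Set (Set (Set Y))} (h : S1 A B) (hA : A' ⊆ A)
    (hB : B ⊆ B') : Sfin A' B' := by
  intro C hC
  obtain ⟨U, h1, h2⟩ := S1_mono h hA hB C hC
  refine ⟨fun n => {U n}, fun n => ⟨finite_singleton _, singleton_subset_iff.2 (h1 n)⟩, ?_⟩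
  rwa [iUnion_singleton_eq_range]

theorem sfin_mono2 {Y : Type} {A A' B B' : Set (Set (Set Y))} (h : Sfin A B) (hA : A' ⊆ A)
    (hB : B ⊆ B') : Sfin A' B' := by
  intro C hC
  obtain ⟨F, h1, h2⟩ := h C fun n => hA (hC n)
  exact ⟨F, h1, hB h2⟩

/-- Under CH none of the five properties is preserved under squares. -/
theorem result (hCH : (𝔠 : Cardinal.{0}) = ℵ₁) : ∃ X : Set ℝ,
    (S1 (Tau X) (Gamma X) ∧ S1 (Tau X) (Tau X) ∧ S1 (Tau X) (Omega X) ∧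
      Sfin (Tau X) (Tau X) ∧ Sfin (Tau X) (Omega X)) ∧
    ¬ S1 (Tau (Fin 2 → X)) (Gamma (Fin 2 → X)) ∧ ¬ S1 (Tau (Fin 2 → X)) (Tau (Fin 2 → X)) ∧
      ¬ S1 (Tau (Fin 2 → X)) (Omega (Fin 2 → X)) ∧
      ¬ Sfin (Tau (Fin 2 → X)) (Tau (Fin 2 → X)) ∧
      ¬ Sfin (Tau (Fin 2 → X)) (Omega (Fin 2 → X)) := by
  obtain ⟨X, hne, h1, -, -, h4⟩ := Pool.Agent.H83.Sier.main hCH
  exact ⟨X, ⟨h1, S1_mono h1 Subset.rfl gamma_sub_tau,
    S1_mono h1 Subset.rfl (gamma_sub_tau.trans tau_sub_omega),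
    sfin_of h1 Subset.rfl gamma_sub_tau,
    sfin_of h1 Subset.rfl (gamma_sub_tau.trans tau_sub_omega)⟩,
    fun h => h4 (sfin_of h gamma_sub_tau (gamma_sub_tau.trans tau_sub_omega)),
    fun h => h4 (sfin_of h gamma_sub_tau tau_sub_omega),
    fun h => h4 (sfin_of h gamma_sub_tau Subset.rfl),
    fun h => h4 (sfin_mono2 h gamma_sub_tau tau_sub_omega),
    fun h => h4 (sfin_mono2 h gamma_sub_tau Subset.rfl)⟩

end Pool.Agent.Results.MP_24a1d9_gt.Q2Full
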